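import Pool.Agent.Lib.MP_ab8df0_nt.T.B8a.R0

/-! The result of the computation. -/

set_option maxRecDepth 100000

namespace Pool.Agent.Lib.MP_ab8df0_nt.T.B8a

open Pool.Agent.Lib.MP_ab8df0_nt.B Pool.Agent.Lib.MP_ab8df0_nt.P

theorem rc1 {K : Type} [Field K] [NumberField K] {a : K} {pl : List (Place K)} {ph : List (K →+* ℝ)}
    {w : List (IsDedekindDomain.HeightOneSpectrum (NumberField.RingOfIntegers K))}
    (hP : Pack K FDF5 a pl ph w) : cval a vs 18 = (9 + (12 * a)) := by
  have h : (cval a vs 18 + (-((((9 : ℤ) : K) + (((12 : ℤ) : K) * cval a vs 0))))) = 0 :=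
    hP.rel vs (.add (.var 18) (.neg (.add (.num 9) (.mul (.num 12) (.var 0))))) (by decide +kernel)
  have h0 : cval a vs 0 = a := by simp [cval, vs, ev]
  try rw [h0] at h
  try push_cast at h
  linear_combination h

theorem rc2 {K : Type} [Field K] [NumberField K] {a : K} {pl : List (Place K)} {ph : List (K →+* ℝ)}
    {w : List (IsDedekindDomain.HeightOneSpectrum (NumberField.RingOfIntegers K))}
    (hP : Pack K FDF5 a pl ph w) : cval a vs 19 = (21 - (12 * a)) := by
  have h : (cval a vs 19 + (-((((21 : ℤ) : K) + (-((((12 : ℤ) : K) * cval a vs 0))))))) = 0 :=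
    hP.rel vs (.add (.var 19) (.neg (.add (.num 21) (.neg (.mul (.num 12) (.var 0)))))) (by decide +kernel)
  have h0 : cval a vs 0 = a := by simp [cval, vs, ev]
  try rw [h0] at h
  try push_cast at h
  linear_combination h

theorem rf4 {K : Type} [Field K] [NumberField K] {a : K} {pl : List (Place K)} {ph : List (K →+* ℝ)}
    {w : List (IsDedekindDomain.HeightOneSpectrum (NumberField.RingOfIntegers K))}
    (hP : Pack K FDF5 a pl ph w) : cval a vs 20 = (2 + (3 * a)) := by
  have h : (cval a vs 20 + (-((((2 : ℤ) : K) + (((3 : ℤ) : K) * cval a vs 0))))) = 0 :=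
    hP.rel vs (.add (.var 20) (.neg (.add (.num 2) (.mul (.num 3) (.var 0))))) (by decide +kernel)
  have h0 : cval a vs 0 = a := by simp [cval, vs, ev]
  try rw [h0] at h
  try push_cast at h
  linear_combination h

theorem rr {K : Type} [Field K] [NumberField K] {a : K} {pl : List (Place K)} {ph : List (K →+* ℝ)}
    {w : List (IsDedekindDomain.HeightOneSpectrum (NumberField.RingOfIntegers K))}
    (hP : Pack K FDF5 a pl ph w) : cval a vs 21 = (2 + ((-1) * a)) := by
  have h : (cval a vs 21 + (-((((2 : ℤ) : K) + (((-1 : ℤ) : K) * cval a vs 0))))) = 0 :=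
    hP.rel vs (.add (.var 21) (.neg (.add (.num 2) (.mul (.num (-1)) (.var 0))))) (by decide +kernel)
  have h0 : cval a vs 0 = a := by simp [cval, vs, ev]
  try rw [h0] at h
  try push_cast at h
  linear_combination h

theorem ra {K : Type} [Field K] [NumberField K] {a : K} {pl : List (Place K)} {ph : List (K →+* ℝ)}
    {w : List (IsDedekindDomain.HeightOneSpectrum (NumberField.RingOfIntegers K))}
    (hP : Pack K FDF5 a pl ph w) : cval a vs 11 = (4 + ((-2) * a)) := by
  have h : (cval a vs 11 + (-((((4 : ℤ) : K) + (((-2 : ℤ) : K) * cval a vs 0))))) = 0 :=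
    hP.rel vs (.add (.var 11) (.neg (.add (.num 4) (.mul (.num (-2)) (.var 0))))) (by decide +kernel)
  have h0 : cval a vs 0 = a := by simp [cval, vs, ev]
  try rw [h0] at h
  try push_cast at h
  linear_combination h

theorem rb {K : Type} [Field K] [NumberField K] {a : K} {pl : List (Place K)} {ph : List (K →+* ℝ)}
    {w : List (IsDedekindDomain.HeightOneSpectrum (NumberField.RingOfIntegers K))}
    (hP : Pack K FDF5 a pl ph w) : cval a vs 12 = (4 + ((-4) * a)) := by
  have h : (cval a vs 12 + (-((((4 : ℤ) : K) + (((-4 : ℤ) : K) * cval a vs 0))))) = 0 :=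
    hP.rel vs (.add (.var 12) (.neg (.add (.num 4) (.mul (.num (-4)) (.var 0))))) (by decide +kernel)
  have h0 : cval a vs 0 = a := by simp [cval, vs, ev]
  try rw [h0] at h
  try push_cast at h
  linear_combination h

theorem rx0 {K : Type} [Field K] [NumberField K] {a : K} {pl : List (Place K)} {ph : List (K →+* ℝ)}
    {w : List (IsDedekindDomain.HeightOneSpectrum (NumberField.RingOfIntegers K))}
    (hP : Pack K FDF5 a pl ph w) : cval a vs 22 = (0 + (4 * a)) := by
  have h : (cval a vs 22 + (-((((0 : ℤ) : K) + (((4 : ℤ) : K) * cval a vs 0))))) = 0 :=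
    hP.rel vs (.add (.var 22) (.neg (.add (.num 0) (.mul (.num 4) (.var 0))))) (by decide +kernel)
  have h0 : cval a vs 0 = a := by simp [cval, vs, ev]
  try rw [h0] at h
  try push_cast at h
  linear_combination h

theorem core {K : Type} [Field K] [NumberField K] {a : K} {pl : List (Place K)} {ph : List (K →+* ℝ)}
    {w : List (IsDedekindDomain.HeightOneSpectrum (NumberField.RingOfIntegers K))}
    (hP : Pack K FDF5 a pl ph w) {G : Prop} (t p q X x y dp dq dX dx : K)
    (hdisc : Q2 4 (t - ((0 : ℤ) : K)))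
    (ht : IsSquare t)
    (hrp : p ^ 2 = (1 + (cval a vs 18 * t)))
    (hrq : q ^ 2 = (1 + (cval a vs 19 * t)))
    (hcp : IsSquare (2 * (cval a vs 18 * (p - 1))))
    (hcq : IsSquare (2 * (cval a vs 19 * (q - 1))))
    (hX : (1 + p) * X = (1 + q))
    (hx : x = ((cval a vs 20 * X) - cval a vs 21))
    (hon : On (cval a vs 11) (cval a vs 12) x y)
    (hdp : (1 + p) * dp = cval a vs 18)
    (hdq : (1 + q) * dq = cval a vs 19)
    (hdX : (1 + p) * dX = (dq - dp))
    (hdx : dx = (cval a vs 20 * dX))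
    (hddn : (1 * t - 0) ≠ 0) (hdd : x - cval a vs 22 = (1 * t - 0) * dx) :
    G := by
  refine hP.cover (fr := [t, p, q, X, x, y, dp, dq, dX, dx]) (M := M) (cs := [[]]) rfl auto
    (l := [(0, 5), (16, 5)]) (by decide) ?_ hdisc fun t0 k0 hq => ?_
  · exact List.forall_mem_cons.2 ⟨⟨_, r0⟩, List.forall_mem_cons.2 ⟨⟨_, r1⟩, fun _ h => absurd h List.not_mem_nil⟩⟩
  · refine List.forall_mem_cons.2 ⟨?_, List.forall_mem_cons.2 ⟨?_, List.forall_mem_cons.2 ⟨?_, List.forall_mem_cons.2 ⟨?_, List.forall_mem_cons.2 ⟨?_, List.forall_mem_cons.2 ⟨?_, List.forall_mem_cons.2 ⟨?_, List.forall_mem_cons.2 ⟨?_, List.forall_mem_cons.2 ⟨?_, List.forall_mem_cons.2 ⟨?_, List.forall_mem_cons.2 ⟨?_, List.forall_mem_cons.2 ⟨?_, List.forall_mem_cons.2 ⟨?_, List.forall_mem_cons.2 ⟨?_, List.forall_mem_cons.2 ⟨?_, fun _ h => absurd h List.not_mem_nil⟩⟩⟩⟩⟩⟩⟩⟩⟩⟩⟩⟩⟩⟩⟩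
    · exact hq
    · exact hq
    · exact span_of_isSquare (x := t) ((by push_cast; ring : t = t) ▸ ht)
    · show p ^ 2 = (((1 : ℤ) : K) + (cval a vs 18 * t))
      try push_cast
      linear_combination hrp
    · show q ^ 2 = (((1 : ℤ) : K) + (cval a vs 19 * t))
      try push_cast
      linear_combination hrq
    · exact span_of_isSquare (x := (((2 : ℤ) : K) * (cval a vs 18 * (p + (-(((1 : ℤ) : K))))))) ((by push_cast; ring : (((2 : ℤ) : K) * (cval a vs 18 * (p + (-(((1 : ℤ) : K)))))) = (2 * (cval a vs 18 * (p - 1)))) ▸ hcp)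
    · exact span_of_isSquare (x := (((2 : ℤ) : K) * (cval a vs 19 * (q + (-(((1 : ℤ) : K))))))) ((by push_cast; ring : (((2 : ℤ) : K) * (cval a vs 19 * (q + (-(((1 : ℤ) : K)))))) = (2 * (cval a vs 19 * (q - 1)))) ▸ hcq)
    · show (((1 : ℤ) : K) + p) * X = (((1 : ℤ) : K) + q)
      try push_cast
      linear_combination hX
    · show x = ((cval a vs 20 * X) + (-(cval a vs 21)))
      try push_cast
      linear_combination hx
    · exact hon
    · show (((1 : ℤ) : K) + p) * dp = cval a vs 18
      try push_cast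
      linear_combination hdp
    · show (((1 : ℤ) : K) + q) * dq = cval a vs 19
      try push_cast
      linear_combination hdq
    · show (((1 : ℤ) : K) + p) * dX = (dq + (-(dp)))
      try push_cast
      linear_combination hdX
    · show dx = (cval a vs 20 * dX)
      try push_cast
      linear_combination hdx
    · show (((1 : ℤ) : K) * t - ((0 : ℤ) : K)) ≠ 0 ∧ x - cval a vs 22 = (((1 : ℤ) : K) * t - ((0 : ℤ) : K)) * dx
      try push_cast
      exact ⟨by simpa using hddn, by linear_combination hdd⟩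

end Pool.Agent.Lib.MP_ab8df0_nt.T.B8a
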