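import Pool.Agent.Lib.MP_ab8df0_nt.B.Auto2
import Pool.Agent.Lib.MP_ab8df0_nt.P.F5D

/-! Constants and hypotheses. -/

set_option maxRecDepth 100000

namespace Pool.Agent.Lib.MP_ab8df0_nt.T.B8a

open Pool.Agent.Lib.MP_ab8df0_nt.B Pool.Agent.Lib.MP_ab8df0_nt.P

def vs : Cs := [([0, 1], 1), ([], 1), ([], 1), ([], 1), ([], 1), ([], 1), ([], 1), ([], 1), ([], 1), ([], 1), ([], 1), 
  ([4, -2], 1),
  ([4, -4], 1),
  ([-8, 4], 1),
  ([4, 4], 1),
  ([2], 1),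
  ([-1], 1),
  ([0, 1], 1),
  ([9, 12], 1),
  ([21, -12], 1),
  ([2, 3], 1),
  ([2, -1], 1),
  ([0, 4], 1),
  ([-4, -8], 1),
  ([4, 8], 1),
  ([-2, 1], 1),
  ([1], 1),
  ([128, -80], 1),
  ([1736, -1072], 1),
  ([-2, 2], 1),
  ([], 1),
  ([-2], 1),
  ([2, -2], 1),
  ([8, -4], 1)]

def c0 : EC := ⟨11, 12, 13, 14, [15, 16, 17], [15, 16, 17]⟩

def M (t0 : ℤ) (k0 : ℕ) : List Hyp := [
  .disc 1 t0 k0,
  .disc 1 t0 k0,
  .cls (.var 1) [],
  .sqr 2 (.add (.num 1) (.mul (.var 18) (.var 1))),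
  .sqr 3 (.add (.num 1) (.mul (.var 19) (.var 1))),
  .cls (.mul (.num 2) (.mul (.var 18) (.add (.var 2) (.neg (.num 1))))) [],
  .cls (.mul (.num 2) (.mul (.var 19) (.add (.var 3) (.neg (.num 1))))) [],
  .lin 4 (.add (.num 1) (.var 2)) (.add (.num 1) (.var 3)),
  .eq 5 (.add (.mul (.var 20) (.var 4)) (.neg (.var 21))),
  .on c0 false 5 6,
  .lin 7 (.add (.num 1) (.var 2)) (.var 18),
  .lin 8 (.add (.num 1) (.var 3)) (.var 19),
  .lin 9 (.add (.num 1) (.var 2)) (.add (.var 8) (.neg (.var 7))),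
  .eq 10 (.mul (.var 20) (.var 9)),
  .dq 5 22 1 0 1 10]

def k0 : Cut := ⟨[], [], [], [[false, false, true], [true, false, false], [false, true, false]], [[false, true, false], [false, false, true], [true, false, false]]⟩

def A : List AH := [
  .ec c0 2 ([0, -1], 4) ([2, -1], 4) k0 k0,
  .on c0 false 22 23,
  .on c0 false 22 24,
  .on c0 false 25 26,
  .on c0 false 27 28,
  .on c0 false 15 12,
  .on c0 false 29 30,
  .on c0 false 31 30,
  .on c0 false 32 33]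

theorem auto : (baseOk 10 vs && A.all (AH.ok FDF5 10 vs)) = true := by decide +kernel

end Pool.Agent.Lib.MP_ab8df0_nt.T.B8a
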