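import Pool.Agent.Lib.MP_ab8df0_nt.C.BB

/-! Embeddings of the golden ring into a commutative ring with a golden ratio. -/

namespace Pool.Agent.Lib.MP_ab8df0_nt.T.B8a

open QuadraticAlgebra Pool.Agent.Lib.MP_ab8df0_nt.C

/-- the homomorphism sending the golden ratio to `t` -/
def emb {K : Type} [CommRing K] (t : K) (ht : t ^ 2 = t + 1) : O →+* K where
  toFun z := z.re + z.im * t
  map_one' := by simp
  map_zero' := by simp
  map_add' x y := by simp only [re_add, im_add]; push_cast; ring
  map_mul' x y := by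
    simp only [re_mul, im_mul]; push_cast
    linear_combination (-(x.im * y.im : K)) * ht

theorem emb_mk {K : Type} [CommRing K] (t : K) (ht : t ^ 2 = t + 1) (x y : ℤ) :
    emb t ht ⟨x, y⟩ = x + y * t := rfl

theorem emb_apply {K : Type} [CommRing K] (t : K) (ht : t ^ 2 = t + 1) (z : O) :
    emb t ht z = z.re + z.im * t := rfl

theorem emb_c8 {K : Type} [CommRing K] (t : K) (ht : t ^ 2 = t + 1) : emb t ht c8 = 9 + 12 * t := by
  rw [c8, emb_mk]; push_cast; ring

theorem emb_s5 {K : Type} [CommRing K] (t : K) (ht : t ^ 2 = t + 1) : emb t ht s5 = 2 * t - 1 := by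
  rw [s5, emb_mk]; push_cast; ring

/-- the image of the quartic equation -/
theorem emb_eq {K : Type} [CommRing K] (t : K) (ht : t ^ 2 = t + 1) {s v : ℤ} {p : O}
    (h : p ^ 2 = (s : O) ^ 4 + c8 * (v : O) ^ 2) :
    emb t ht p ^ 2 = (s : K) ^ 4 + (9 + 12 * t) * (v : K) ^ 2 := by
  have := congrArg (emb t ht) h
  simpa only [map_pow, map_add, map_mul, map_intCast, emb_c8] using this

end Pool.Agent.Lib.MP_ab8df0_nt.T.B8a
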