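import Pool.Agent.Lib.MP_ab8df0_nt.T.B8a.Core
import Pool.Agent.Lib.MP_ab8df0_nt.T.B8a.Emb
import Pool.Agent.Lib.MP_ab8df0_nt.P.F5

/-! The first class for the quartic equation over the golden ring. -/

namespace Pool.Agent.Lib.MP_ab8df0_nt.T.B8a

open Pool.Agent.Lib.MP_ab8df0_nt.B Pool.Agent.Lib.MP_ab8df0_nt.P Pool.Agent.Lib.MP_ab8df0_nt.C

theorem main {K : Type} [Field K] [NumberField K] {a : K} {pl : List (Place K)} {ph : List (K →+* ℝ)}
    {w : List (IsDedekindDomain.HeightOneSpectrum (NumberField.RingOfIntegers K))}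
    (hP : Pack K FDF5 a pl ph w) : BB8a := by
  intro s v p m _ hs hv hp hm
  have ha : a ^ 2 = a + 1 := by
    have := hP.root
    simp only [FDF5, ev, List.length_cons, List.length_nil] at this
    push_cast at this
    linear_combination this
  have hb : (1 - a) ^ 2 = (1 - a) + 1 := by linear_combination ha
  have e1 := emb_eq a ha hp
  have e2 := emb_eq (1 - a) hb hp
  have f1 := congrArg (emb a ha) hm
  have f2 := congrArg (emb (1 - a) hb) hm
  simp only [map_pow, map_add, map_mul, map_intCast, map_ofNat] at f1 f2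
  generalize emb a ha p = p1 at e1 f1
  generalize emb (1 - a) hb p = p2 at e2 f2
  generalize emb a ha m = m1 at f1
  generalize emb (1 - a) hb m = m2 at f2
  by_contra hv0
  have hs0 : (s : K) ≠ 0 := Int.cast_ne_zero.2 fun h0 => by simp [h0] at hs
  have hv1 : (v : K) ≠ 0 := Int.cast_ne_zero.2 hv0
  have hcc : (9 + 12 * a) * (21 - 12 * a) = 45 := by linear_combination (-144) * ha
  have hc1 : 9 + 12 * a ≠ 0 := fun h => by rw [h, zero_mul] at hcc; norm_num at hcc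
  have hc2 : 21 - 12 * a ≠ 0 := fun h => by rw [h, mul_zero] at hcc; norm_num at hcc
  obtain ⟨u, hu⟩ : ∃ u : K, u = v / s ^ 2 := ⟨_, rfl⟩
  obtain ⟨mu, hmu⟩ : ∃ mu : K, mu = m1 / s := ⟨_, rfl⟩
  obtain ⟨nu, hnu⟩ : ∃ nu : K, nu = m2 / s := ⟨_, rfl⟩
  have hu0 : u ≠ 0 := hu ▸ div_ne_zero hv1 (pow_ne_zero 2 hs0)
  have g1 : (2 * mu ^ 2 - 1) ^ 2 = 1 + (9 + 12 * a) * u ^ 2 := by
    rw [hu, hmu]
    field_simp
    linear_combination e1 + (p1 + 2 * m1 ^ 2 - s ^ 2) * (-f1)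
  have g2 : (2 * nu ^ 2 - 1) ^ 2 = 1 + (21 - 12 * a) * u ^ 2 := by
    rw [hu, hnu]
    field_simp
    linear_combination e2 + (p2 + 2 * m2 ^ 2 - s ^ 2) * (-f2)
  have hm0 : mu ≠ 0 := fun h => mul_ne_zero hc1 (pow_ne_zero 2 hu0) (by
    rw [h] at g1; linear_combination -g1)
  have hn0 : nu ≠ 0 := fun h => mul_ne_zero hc2 (pow_ne_zero 2 hu0) (by
    rw [h] at g2; linear_combination -g2)
  obtain ⟨X, hX⟩ : ∃ X : K, X = nu ^ 2 / mu ^ 2 := ⟨_, rfl⟩
  have hX1 : mu ^ 2 * X = nu ^ 2 := by rw [hX]; field_simp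
  have key : mu ^ 2 * ((8 * a + 5) * X ^ 2 - 1) = (8 * a + 5) * X - 1 := by
    apply mul_left_cancel₀ (mul_ne_zero (pow_ne_zero 2 hm0) (by norm_num : (4 : K) ≠ 0))
    rw [← hX1] at g2
    linear_combination (8 * a + 5) * g2 - g1 + (-96 * u ^ 2) * ha
  have hd : Q2 4 (u ^ 2 - ((0 : ℤ) : K)) := by
    have h16 : (2 : ℤ) ^ 4 ∣ v ^ 2 - 0 * s ^ 4 := by
      obtain ⟨k, rfl⟩ := hv
      exact ⟨k ^ 2, by ring⟩
    have := Q2.of_div (L := K) (hs.pow (n := 4)) h16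
    have e : u ^ 2 = ((v ^ 2 : ℤ) : K) / ((s ^ 4 : ℤ) : K) := by
      rw [hu]; push_cast; field_simp
    rwa [e]
  refine core hP (u ^ 2) (2 * mu ^ 2 - 1) (2 * nu ^ 2 - 1) X (cval a vs 20 * X - cval a vs 21)
    (mu * ((8 * a + 5) * X ^ 2 - 1)) ((2 * mu ^ 2 - 2) / u ^ 2) ((2 * nu ^ 2 - 2) / u ^ 2)
    ((X - 1) / u ^ 2) (cval a vs 20 * ((X - 1) / u ^ 2)) hd ⟨u, by ring⟩ (by rw [rc1 hP]; exact g1)
    (by rw [rc2 hP]; exact g2) ⟨(9 + 12 * a) * u / mu, ?_⟩ ⟨(21 - 12 * a) * u / nu, ?_⟩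
    (by linear_combination 2 * hX1) rfl ?_ ?_ ?_ ?_ rfl (by simpa using hu0) ?_
  · rw [rc1 hP]
    field_simp
    linear_combination g1
  · rw [rc2 hP]
    field_simp
    linear_combination g2
  · unfold On
    rw [ra hP, rb hP, rf4 hP, rr hP]
    linear_combination ((8 * a + 5) * X ^ 2 - 1) * key + (-1 + 5 * X + 3 * X * a - 3 * X ^ 2
      - 9 * X ^ 2 * a - 17 * X ^ 3 - 27 * X ^ 3 * a + a) * ha
  · rw [rc1 hP]
    field_simp
    linear_combination g1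
  · rw [rc2 hP]
    field_simp
    linear_combination g2
  · field_simp
    linear_combination 2 * hX1
  · rw [rx0 hP, rf4 hP, rr hP]
    field_simp
    ring

theorem bb : BB8a := by
  obtain ⟨pl, ph, w, hP⟩ := F5.pack
  exact main hP

end Pool.Agent.Lib.MP_ab8df0_nt.T.B8a
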