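import Pool.Agent.Lib.MP_ab8df0_nt.T.B8a.Def

/-! Proof trees. -/

set_option maxRecDepth 100000

namespace Pool.Agent.Lib.MP_ab8df0_nt.T.B8a

open Pool.Agent.Lib.MP_ab8df0_nt.B Pool.Agent.Lib.MP_ab8df0_nt.P

def r0_1 : Tree := .set 42 [[]] (.yrt 43 [] (ce 2 264 7 2 0x1949) (.set 44 [[ce (-1) 264 11 2 0x3a0171]] (.set 45 [[ce (-1) 264 8 2 0xc0b1]] (.set 46 [[ce (-1) 264 11 2 0x3a0171]] (.set 47 [[]] (.dent 60 50 48 true [[ce (-3) 264 7 2 0x2579]] [[ce 0 264 15 2 0x22004481]] [[ce 0 264 15 2 0xf005181]] (.deep 49 58 58 62 63 34 5 [2] [] [] (.pnil 65) (.pnil 65) (.set 64 [[]] (.set 65 [[]] (.set 66 [[]] (.set 67 [[ce (-4) 264 8 2 0xe31a]] (.set 68 [[ce (-2) 264 7 2 0xddf]] (.half 49 69 58 [ce 2 264 6 2 0x9d6] (ce (-2) 264 8 2 0x65c1) (.fin 49 69 70 [[ce 2 264 6 2 0x1fe]] (.set 72 [[ce 2 264 6 2 0x37d]] (.set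 73 [[]] (.half 49 71 58 [ce 1 264 6 2 0xbe6] (ce (-1) 264 8 2 0x6dc9) (.fin 49 71 75 [[ce 1 264 7 2 0x27ee]] (.set 77 [[ce 2 264 6 2 0x37d]] (.set 78 [[]] (.half 49 76 58 [ce 1 264 6 2 0xece] (ce (-1) 264 7 2 0xed) (.fin 49 76 80 [[ce 1 264 6 2 0xf6]] (.set 82 [[ce 0 264 6 2 0xf6d]] (.set 83 [[]] (.half 49 81 58 [ce 0 264 6 2 0x2fe] (ce 0 264 8 2 0xa15d) (.fin 49 81 85 [[ce 0 264 7 2 0x9e6]] (.set 89 [[ce 0 264 6 2 0x3e7]] (.set 89 [[ce 0 264 8 2 0xfa7]] (.set 88 [[]] (.add 86 50 false [[ce (-5) 264 5 2 0x2be]] (.half 49 90 58 [ce 2 264 6 2 0xf41] (ce (-2) 264 5 2 0x2e6) (.fin 49 90 91 [[ce 2 264 5 2 0x3a1]] (.set 93 [[ce 2 264 4 2 0x3e]] (.set 94 [[]] (.half 49 92 58 [ce 1 264 4 2 0xd1] (ce (-1) 264 6 2 0xdf6) (.fin 49 92 96 [[ce 1 264 4 2 0xd1]] (.set 98 [[ce 2 264 3 2 0x1e]] (.set 99 [[]] (.half 49 97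 58 [ce 1 264 6 2 0xc49] (ce (-1) 264 6 2 0xdea) (.fin 49 97 101 [[ce 1 264 5 2 0x229]] (.set 103 [[ce 0 264 4 2 0x3a]] (.set 104 [[]] (.half 49 102 58 [ce 0 264 6 2 0x77b] (ce 0 264 6 2 0x8d8) (.fin 49 102 106 [[ce 0 264 3 2 0x1d]] (.set 108 [[ce 0 264 4 2 0xb0]] (.set 109 [[]] (.edead 49 107 58 [false, true, true] [ce 0 264 6 2 0xa19])))))))))))))))))))))))))))))))))))))))))))))))

def r0_2 : Tree := .root 37 0 [] (ce 0 264 13 2 0x3b00821) (.root 38 0 [] (ce 0 264 11 2 0x1405a1) (.set 41 [[ce (-1) 264 11 2 0xa04f1]] (.set 42 [[]] (.yrt 43 [] (ce 2 264 9 2 0x36489) (.set 44 [[ce (-1) 264 11 2 0xa04f1]] (.set 45 [[ce (-1) 264 11 2 0x360631]] (.set 46 [[ce (-1) 264 11 2 0xa04f1]] (.set 47 [[]] (.dent 60 50 48 true [[ce (-3) 264 7 2 0x559]] [[ce 0 264 12 2 0x400c81]] [[ce 0 264 15 2 0x3f002981]] (.deep 49 58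 58 62 63 34 5 [2] [] [] (.pnil 65) (.pnil 65) (.set 64 [[]] (.set 65 [[]] (.set 66 [[]] (.set 67 [[ce (-4) 264 8 2 0xa39a]] (.set 68 [[ce (-2) 264 7 2 0x3dbf]] (.half 49 69 58 [ce 2 264 5 2 0xf6] (ce (-2) 264 8 2 0x8561) (.fin 49 69 70 [[ce 2 264 7 2 0x13fe]] (.set 72 [[ce 2 264 6 2 0x37d]] (.set 73 [[]] (.half 49 71 58 [ce 1 264 6 2 0x3e6] (ce (-1) 264 8 2 0x8d69) (.fin 49 71 75 [[ce 1 264 7 2 0x37ae]] (.set 77 [[ce 2 264 6 2 0x37d]] (.set 78 [[]] (.half 49 76 58 [ce 1 264 5 2 0x36e] (ce (-1) 264 8 2 0xa18d) (.fin 49 76 80 [[ce 1 264 7 2 0x11f6]] (.set 82 [[ce 0 264 6 2 0xf6d]] (.set 83 [[]] (.half 49 81 58 [ce 0 264 6 2 0xafe] (ce 0 264 7 2 0x20fd) (.fin 49 81 85 [[ce 0 264 6 2 0xce6]] (.set 89 [[ce 0 264 6 2 0x3e7]] (.set 89 [[ce 0 264 8 2 0xcf67]] (.set 88 [[]] (.add 86 50 false [[ce (-5) 264 5 2 0xb6]]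 (.half 49 90 58 [ce 2 264 6 2 0x951] (ce (-2) 264 6 2 0xdee) (.fin 49 90 91 [[ce 2 264 5 2 0xb1]] (.set 93 [[ce 2 264 4 2 0x3e]] (.set 94 [[]] (.half 49 92 58 [ce 1 264 5 2 0x2b1] (ce (-1) 264 6 2 0x5fe) (.fin 49 92 96 [[ce 1 264 5 2 0x2b1]] (.set 98 [[ce 2 264 3 2 0x1e]] (.set 99 [[]] (.half 49 97 58 [ce 1 264 5 2 0x339] (ce (-1) 264 5 2 0x2f2) (.fin 49 97 101 [[ce 1 264 5 2 0x339]] (.set 103 [[ce 0 264 4 2 0x3a]] (.set 104 [[]] (.half 49 102 58 [ce 0 264 6 2 0xf7b] (ce 0 264 6 2 0x8f8) (.fin 49 102 106 [[ce 0 264 3 2 0x1d]] (.set 108 [[ce 0 264 3 2 0x1c]] (.set 109 [[]] (.edead 49 107 58 [false, true, true] [ce 0 264 6 2 0xa39]))))))))))))))))))))))))))))))))))))))))))))))))) (.dead 40 59 [[]] [] [ce (-1) 264 6 2 0xa19])) (.dead 39 59 [[]] [] [ce (-1) 264 5 2 0x301])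

def r0_3 : Tree := .split 35 (.root 37 0 [] (ce 0 264 13 2 0x2f013a1) (.root 38 0 [] (ce 0 264 12 2 0x880b21) (.set 41 [[ce (-1) 264 11 2 0x220731]] (.set 42 [[]] (.yrt 43 [] (ce 2 264 9 2 0x3e5e9) (.set 44 [[ce (-1) 264 11 2 0x220731]] (.set 45 [[ce (-1) 264 10 2 0xf0371]] (.set 46 [[ce (-1) 264 11 2 0x220731]] (.set 47 [[]] (.dent 60 50 48 true [[ce (-3) 264 7 2 0x3569]] [[ce 0 264 15 2 0x32002081]] [[ce 0 264 14 2 0xb802581]] (.deep 49 58 58 62 63 34 5 [2] [] [] (.pnil 65) (.pnil 65) (.set 64 [[]] (.set 65 [[]] (.set 66 [[]] (.set 67 [[ce (-4) 264 8 2 0x43da]] (.set 68 [[ce (-2) 264 7 2 0x5cf]] (.half 49 69 58 [ce 2 264 6 2 0xdf6] (ce (-2) 264 8 2 0xf551) (.fin 49 69 70 [[ce 2 264 5 2 0x2fe]] (.set 72 [[ce 2 264 6 2 0xb5d]] (.set 73 [[]] (.half 49 71 58 [ce 1 264 6 2 0xfc6] (ce (-1) 264 8 2 0x7dd9) (.fin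 49 71 75 [[ce 1 264 7 2 0x2fce]] (.set 77 [[ce 2 264 6 2 0xb5d]] (.set 78 [[]] (.half 49 76 58 [ce 1 264 6 2 0x2ee] (ce (-1) 264 8 2 0xd13d) (.fin 49 76 80 [[ce 1 264 7 2 0x2996]] (.set 82 [[ce 0 264 5 2 0x3ad]] (.set 83 [[]] (.half 49 81 58 [ce 0 264 5 2 0x37e] (ce 0 264 8 2 0xb16d) (.fin 49 81 85 [[ce 0 264 7 2 0x11c6]] (.set 89 [[ce 0 264 6 2 0xbc7]] (.set 89 [[ce 0 264 8 2 0xef07]] (.set 88 [[]] (.add 86 50 false [[ce (-5) 264 5 2 0x1ba]] (.half 49 90 58 [ce 2 264 6 2 0xc61] (ce (-2) 264 6 2 0xff2) (.fin 49 90 91 [[ce 2 264 5 2 0x221]] (.set 93 [[ce 2 264 4 2 0xfa]] (.set 94 [[]] (.half 49 92 58 [ce 1 264 6 2 0xc69] (ce (-1) 264 5 2 0x2ea) (.fin 49 92 96 [[ce 1 264 5 2 0x229]] (.set 98 [[ce 2 264 4 2 0xf2]] (.set 99 [[]] (.half 49 97 58 [ce 1 264 6 2 0x979] (ce (-1) 264 6 2 0xbe6) (.fin 49 97 101 [[ce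 1 264 5 2 0xb9]] (.set 103 [[ce 0 264 4 2 0x7e]] (.set 104 [[]] (.half 49 102 58 [ce 0 264 6 2 0x84b] (ce 0 264 6 2 0xadc) (.fin 49 102 106 [[ce 0 264 5 2 0x3f5]] (.set 108 [[ce 0 264 3 2 0x38]] (.set 109 [[]] (.edead 49 107 58 [false, true, true] [ce 0 264 6 2 0x629]))))))))))))))))))))))))))))))))))))))))))))))))) (.dead 40 59 [[]] [] [ce (-1) 264 6 2 0xa19])) (.dead 39 59 [[]] [] [ce (-1) 264 5 2 0x301])) (.root 37 0 [] (ce 0 264 13 2 0x701ca1) (.root 38 0 [] (ce 0 264 13 2 0x3900021) (.set 41 [[ce (-1) 264 11 2 0x3202b1]] (.set 42 [[]] (.yrt 43 [] (ce 2 264 9 2 0xe529) (.set 44 [[ce (-1) 264 11 2 0x3202b1]] (.set 45 [[ce (-1) 264 9 2 0x380f1]] (.set 46 [[ce (-1) 264 11 2 0x3202b1]] (.set 47 [[]] (.dent 60 50 48 true [[ce (-3) 264 7 2 0x1549]] [[ce 0 264 14 2 0x9000881]] [[ce 0 264 15 2 0x7005d81]] (.deep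 49 58 58 62 63 34 5 [2] [] [] (.pnil 65) (.pnil 65) (.set 64 [[]] (.set 65 [[]] (.set 66 [[]] (.set 67 [[ce (-4) 264 7 2 0x1da]] (.set 68 [[ce (-2) 264 7 2 0x35af]] (.half 49 69 58 [ce 2 264 6 2 0x5f6] (ce (-2) 264 8 2 0x95f1) (.fin 49 69 70 [[ce 2 264 7 2 0x1bde]] (.set 72 [[ce 2 264 6 2 0xb5d]] (.set 73 [[]] (.half 49 71 58 [ce 1 264 5 2 0x3e6] (ce (-1) 264 7 2 0xef9) (.fin 49 71 75 [[ce 1 264 7 2 0x3f8e]] (.set 77 [[ce 2 264 6 2 0xb5d]] (.set 78 [[]] (.half 49 76 58 [ce 1 264 6 2 0xaee] (ce (-1) 264 8 2 0xf15d) (.fin 49 76 80 [[ce 1 264 7 2 0x39d6]] (.set 82 [[ce 0 264 5 2 0x3ad]] (.set 83 [[]] (.half 49 81 58 [ce 0 264 6 2 0xede] (ce 0 264 8 2 0xd18d) (.fin 49 81 85 [[ce 0 264 7 2 0x2186]] (.set 89 [[ce 0 264 6 2 0xbc7]] (.set 89 [[ce 0 264 8 2 0xafc7]] (.set 88 [[]] (.add 86 50 false [[ce (-5) 264 5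 2 0x3b2]] (.half 49 90 58 [ce 2 264 6 2 0xe71] (ce (-2) 264 6 2 0x7fa) (.fin 49 90 91 [[ce 2 264 5 2 0x331]] (.set 93 [[ce 2 264 4 2 0xfa]] (.set 94 [[]] (.half 49 92 58 [ce 1 264 5 2 0x339] (ce (-1) 264 5 2 0x2f2) (.fin 49 92 96 [[ce 1 264 5 2 0x339]] (.set 98 [[ce 2 264 4 2 0xf2]] (.set 99 [[]] (.half 49 97 58 [ce 1 264 6 2 0xb49] (ce (-1) 264 6 2 0x3ee) (.fin 49 97 101 [[ce 1 264 4 2 0xd9]] (.set 103 [[ce 0 264 4 2 0x7e]] (.set 104 [[]] (.half 49 102 58 [ce 0 264 6 2 0xe6b] (ce 0 264 6 2 0xed4) (.fin 49 102 106 [[ce 0 264 5 2 0xf5]] (.set 108 [[ce 0 264 3 2 0x38]] (.set 109 [[]] (.edead 49 107 58 [false, true, true] [ce 0 264 6 2 0xe09]))))))))))))))))))))))))))))))))))))))))))))))))) (.dead 40 59 [[]] [] [ce (-1) 264 6 2 0xa19])) (.dead 39 59 [[]] [] [ce (-1) 264 5 2 0x301]))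

def r0_0 : Tree := .set 11 [[]] (.set 12 [[]] (.set 13 [[]] (.set 14 [[]] (.set 15 [[]] (.set 16 [[]] (.set 17 [[]] (.set 18 [[]] (.set 19 [[]] (.set 20 [[]] (.set 21 [[]] (.set 22 [[]] (.set 23 [[]] (.set 24 [[]] (.set 25 [[]] (.set 26 [[]] (.set 27 [[]] (.set 28 [[]] (.set 29 [[]] (.set 30 [[]] (.set 31 [[]] (.set 32 [[]] (.set 33 [[]] (.piv [15, 16, 17] [[ce 0 264 1 0 0x0], [ce 0 264 1 1 0x1], [ce 0 264 6 2 0xfc2]] (.piv [] [] (.disc 35 (.split 35 (.split 35 (.split 35 (.split 35 (.split 35 (.root 37 0 [] (ce 0 264 1 1 0x1) (.root 38 0 [] (ce 0 264 1 1 0x1) (.set 41 [[ce (-1) 264 1 1 0x1]] (.set 42 [[]] (.yrt 43 [] (ce 2 264 2 2 0x9) (.set 44 [[ce (-1) 264 1 1 0x1]] (.set 45 [[ce (-1) 264 1 1 0x1]] (.set 46 [[ce (-1) 264 1 1 0x1]] (.set 47 [[]] (.dent 60 50 48 true [[ce (-3) 264 7 2 0x17d]] [[ce 0 264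 1 1 0x1]] [[ce 0 264 1 1 0x1]] (.deep 49 58 58 62 63 34 5 [2] [] [] (.pnil 65) (.pnil 65) (.set 64 [[]] (.set 65 [[]] (.set 66 [[]] (.set 67 [[ce (-4) 264 7 2 0x2dca]] (.set 68 [[ce (-2) 264 7 2 0x37b3]] (.half 49 69 58 [ce 2 264 6 2 0xefe] (ce (-2) 264 8 2 0xf18d) (.fin 49 69 70 [[ce 2 264 7 2 0x1e6]] (.set 72 [[ce 2 264 5 2 0x2a5]] (.set 73 [[]] (.half 49 71 58 [ce 1 264 6 2 0x8ce] (ce (-1) 264 8 2 0x79d5) (.fin 49 71 75 [[ce 1 264 7 2 0x25d6]] (.set 77 [[ce 2 264 5 2 0x2a5]] (.set 78 [[]] (.half 49 76 58 [ce 1 264 6 2 0xbf6] (ce (-1) 264 7 2 0x3ea9) (.fin 49 76 80 [[ce 1 264 7 2 0x27be]] (.set 82 [[ce 0 264 6 2 0x175]] (.set 83 [[]] (.half 49 81 58 [ce 0 264 4 2 0xf6] (ce 0 264 8 2 0xed29) (.fin 49 81 85 [[ce 0 264 7 2 0x378e]] (.set 89 [[ce 0 264 6 2 0x9df]] (.set 89 [[ce 0 264 8 2 0xa71f]] (.set 88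 [[]] (.add 86 50 false [[ce (-5) 264 5 2 0x29f]] (.half 49 90 58 [ce 2 264 6 2 0x135] (ce (-2) 264 5 2 0x293) (.fin 49 90 91 [[ce 2 264 5 2 0x38b]] (.set 93 [[ce 2 264 3 2 0x21]] (.set 94 [[]] (.half 49 92 58 [ce 1 264 6 2 0x535] (ce (-1) 264 6 2 0x913) (.fin 49 92 96 [[ce 1 264 4 2 0xcb]] (.set 98 [[ce 2 264 4 2 0xc1]] (.set 99 [[]] (.half 49 97 58 [ce 1 264 6 2 0xa3d] (ce (-1) 264 6 2 0xa2b) (.fin 49 97 101 [[ce 1 264 5 2 0x303]] (.set 103 [[ce 0 264 4 2 0x89]] (.set 104 [[]] (.half 49 102 58 [ce 0 264 5 2 0x151] (ce 0 264 6 2 0x993) (.fin 49 102 106 [[ce 0 264 5 2 0x2cf]] (.set 108 [[ce 0 264 4 2 0xa9]] (.set 109 [[]] (.edead 49 107 58 [false, false, true] [ce 0 264 6 2 0xafa]))))))))))))))))))))))))))))))))))))))))))))))))) (.dead 40 59 [[]] [] [ce (-1) 264 6 2 0xa39])) (.dead 39 59 [[]] [] [ce (-1)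 264 6 2 0x621])) (.dead 36 59 [[]] [] [ce 0 264 1 0 0x0])) (.split 35 (.root 37 0 [] (ce 0 264 11 2 0x300481) (.root 38 0 [] (ce 0 264 13 2 0x3400a81) (.set 41 [[ce (-1) 264 11 2 0x2805c1]] (.set 42 [[]] (.yrt 43 [] (ce 2 264 8 2 0xc2a1) (.set 44 [[ce (-1) 264 11 2 0x2805c1]] (.set 45 [[ce (-1) 264 10 2 0xc02c1]] (.set 46 [[ce (-1) 264 11 2 0x2805c1]] (.set 47 [[]] (.dent 60 50 48 true [[ce (-3) 264 7 2 0x116d]] [[ce 0 264 17 2 0x280000801]] [[ce 0 264 16 2 0xe000d801]] (.deep 49 58 58 62 63 34 5 [2] [] [] (.pnil 65) (.pnil 65) (.set 64 [[]] (.set 65 [[]] (.set 66 [[]] (.set 67 [[ce (-4) 264 6 2 0xeca]] (.set 68 [[ce (-2) 264 7 2 0x2fa3]] (.half 49 69 58 [ce 2 264 5 2 0x17e] (ce (-2) 264 8 2 0x811d) (.fin 49 69 70 [[ce 2 264 7 2 0x9c6]] (.set 72 [[ce 2 264 6 2 0xd65]] (.set 73 [[]] (.half 49 71 58 [ce 1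 264 6 2 0xcee] (ce (-1) 264 8 2 0x89e5) (.fin 49 71 75 [[ce 1 264 7 2 0x2db6]] (.set 77 [[ce 2 264 6 2 0xd65]] (.set 78 [[]] (.half 49 76 58 [ce 1 264 6 2 0xfd6] (ce (-1) 264 8 2 0x4df9) (.fin 49 76 80 [[ce 1 264 5 2 0x3fe]] (.set 82 [[ce 0 264 6 2 0x955]] (.set 83 [[]] (.half 49 81 58 [ce 0 264 6 2 0x7e6] (ce 0 264 7 2 0x3eb9) (.fin 49 81 85 [[ce 0 264 7 2 0x3fee]] (.set 89 [[ce 0 264 6 2 0x1ff]] (.set 89 [[ce 0 264 8 2 0x7ff]] (.set 88 [[]] (.add 86 50 false [[ce (-5) 264 5 1 0x1f]] (.half 49 90 58 [ce 2 264 5 2 0x305] (ce (-2) 264 6 2 0x633) (.fin 49 90 91 [[ce 2 264 5 2 0x11b]] (.set 93 [[ce 2 264 4 1 0xd]] (.set 94 [[]] (.half 49 92 58 [ce 1 264 6 1 0x2d] (ce (-1) 264 5 1 0x1b) (.fin 49 92 96 [[ce 1 264 5 1 0x13]] (.set 98 [[ce 2 264 4 2 0x8d]] (.set 99 [[]] (.half 49 97 58 [ce 1 264 5 2 0x19d] (ce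 (-1) 264 6 2 0x73b) (.fin 49 97 101 [[ce 1 264 5 2 0x283]] (.set 103 [[ce 0 264 4 2 0xcd]] (.set 104 [[]] (.half 49 102 58 [ce 0 264 6 2 0x1a1] (ce 0 264 5 2 0x53) (.fin 49 102 106 [[ce 0 264 5 2 0x35f]] (.set 108 [[ce 0 264 4 2 0xad]] (.set 109 [[]] (.edead 49 107 58 [false, false, true] [ce 0 264 5 2 0x36a]))))))))))))))))))))))))))))))))))))))))))))))))) (.dead 40 59 [[]] [] [ce (-1) 264 6 2 0xa39])) (.dead 39 59 [[]] [] [ce (-1) 264 6 2 0x621])) (.dead 36 59 [[]] [] [ce (-4) 264 5 1 0x19]))) (.dead 36 59 [[]] [] [ce 0 264 1 0 0x0])) (.split 35 (.split 35 (.split 35 (.root 37 0 [] (ce 0 264 13 2 0x2301f21) (.root 38 0 [] (ce 0 264 13 2 0x1d010a1) (.set 41 [[ce (-1) 264 11 2 0x3a0171]] r0_1) (.dead 40 59 [[]] [] [ce (-1) 264 6 2 0xa19])) (.dead 39 59 [[]] [] [ce (-1) 264 5 2 0x301])) r0_2) r0_3) (.dead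 36 59 [[]] [] [ce (-3) 264 5 1 0x19]))) (.dead 36 59 [[]] [] [ce 0 264 1 0 0x0])))))))))))))))))))))))))))

theorem r0 : run FDF5.ds FDF5.es [[]] vs.length (fullH 10 vs (M 0 5) A) r0_0 = true := by
  decide +kernel

def r1_0 : Tree := .set 11 [[]] (.set 12 [[]] (.set 13 [[]] (.set 14 [[]] (.set 15 [[]] (.set 16 [[]] (.set 17 [[]] (.set 18 [[]] (.set 19 [[]] (.set 20 [[]] (.set 21 [[]] (.set 22 [[]] (.set 23 [[]] (.set 24 [[]] (.set 25 [[]] (.set 26 [[]] (.set 27 [[]] (.set 28 [[]] (.set 29 [[]] (.set 30 [[]] (.set 31 [[]] (.set 32 [[]] (.set 33 [[]] (.piv [15, 16, 17] [[ce 0 264 1 0 0x0], [ce 0 264 1 1 0x1], [ce 0 264 6 2 0xfc2]] (.piv [] [] (.disc 35 (.split 35 (.split 35 (.split 35 (.root 37 0 [] (ce 0 264 11 2 0x3b0529) (.root 38 0 [] (ce 0 264 11 2 0x50489) (.set 41 [[ce (-1) 264 9 2 0x3a1bd]] (.set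 42 [[]] (.yrt 43 [] (ce 2 264 6 2 0x53d) (.add 60 50 false [[ce (-4) 264 5 2 0x171]] (.half 49 62 58 [ce 1 264 6 2 0xb4f] (ce (-1) 264 5 2 0x2ec) (.fin 49 62 63 [[ce 1 264 5 2 0x271]] (.set 65 [[ce 0 264 4 2 0x3e]] (.set 66 [[]] (.half 49 64 58 [ce 0 264 6 2 0x959] (ce 0 264 4 2 0xf6) (.fin 49 64 68 [[ce 0 264 5 2 0xb9]] (.set 70 [[ce 0 264 4 2 0xf8]] (.set 71 [[]] (.edead 49 69 58 [false, true, true] [ce 0 264 6 2 0x621]))))))))))))) (.dead 40 59 [[]] [] [ce (-1) 264 6 2 0x221])) (.dead 39 59 [[]] [] [ce (-1) 264 6 2 0xe29])) (.root 37 0 [] (ce 0 264 11 2 0x130569) (.root 38 0 [] (ce 0 264 11 2 0x2d07c9) (.set 41 [[ce (-1) 264 8 2 0x509d]] (.set 42 [[]] (.yrt 43 [] (ce 2 264 5 2 0x28d) (.add 60 50 false [[ce (-4) 264 5 2 0x269]] (.half 49 62 58 [ce 1 264 6 2 0x94f] (ce (-1) 264 3 2 0x3c) (.fin 49 62 63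 [[ce 1 264 5 2 0x371]] (.set 65 [[ce 0 264 4 2 0x3e]] (.set 66 [[]] (.half 49 64 58 [ce 0 264 4 2 0xd9] (ce 0 264 4 2 0xfe) (.fin 49 64 68 [[ce 0 264 4 2 0xd9]] (.set 70 [[ce 0 264 4 2 0xf8]] (.set 71 [[]] (.edead 49 69 58 [false, true, true] [ce 0 264 6 2 0xe01]))))))))))))) (.dead 40 59 [[]] [] [ce (-1) 264 6 2 0x221])) (.dead 39 59 [[]] [] [ce (-1) 264 6 2 0xe29]))) (.split 35 (.root 37 0 [] (ce 0 264 11 2 0x70749) (.root 38 0 [] (ce 0 264 11 2 0x390029) (.set 41 [[ce (-1) 264 9 2 0x2212d]] (.set 42 [[]] (.yrt 43 [] (ce 2 264 7 2 0xa45) (.add 60 50 false [[ce (-4) 264 5 2 0x3ed]] (.half 49 62 58 [ce 1 264 4 2 0x97] (ce (-1) 264 5 2 0x2f0) (.fin 49 62 63 [[ce 1 264 5 2 0x2f9]] (.set 65 [[ce 0 264 4 2 0xfa]] (.set 66 [[]] (.half 49 64 58 [ce 0 264 6 2 0x461] (ce 0 264 6 2 0xfd2) (.fin 49 64 68 [[ce 0 264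 5 2 0x221]] (.set 70 [[ce 0 264 2 2 0xc]] (.set 71 [[]] (.edead 49 69 58 [false, true, true] [ce 0 264 6 2 0x231]))))))))))))) (.dead 40 59 [[]] [] [ce (-1) 264 4 2 0x81])) (.dead 39 59 [[]] [] [ce (-1) 264 6 2 0xe09])) (.root 37 0 [] (ce 0 264 11 2 0x1f0789) (.root 38 0 [] (ce 0 264 11 2 0x210369) (.set 41 [[ce (-1) 264 9 2 0x3200d]] (.set 42 [[]] (.yrt 43 [] (ce 2 264 7 2 0x2a15) (.add 60 50 false [[ce (-4) 264 3 2 0x3d]] (.half 49 62 58 [ce 1 264 6 2 0x67] (ce (-1) 264 6 2 0x9e8) (.fin 49 62 63 [[ce 1 264 5 2 0x3f9]] (.set 65 [[ce 0 264 4 2 0xfa]] (.set 66 [[]] (.half 49 64 58 [ce 0 264 6 2 0xe51] (ce 0 264 6 2 0xfda) (.fin 49 64 68 [[ce 0 264 5 2 0x331]] (.set 70 [[ce 0 264 2 2 0xc]] (.set 71 [[]] (.edead 49 69 58 [false, true, true] [ce 0 264 6 2 0xa11]))))))))))))) (.dead 40 59 [[]] [] [ce (-1) 264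 4 2 0x81])) (.dead 39 59 [[]] [] [ce (-1) 264 6 2 0xe09])))) (.dead 36 59 [[]] [] [ce (-2) 264 5 1 0x19])))))))))))))))))))))))))))

theorem r1 : run FDF5.ds FDF5.es [[]] vs.length (fullH 10 vs (M 16 5) A) r1_0 = true := by
  decide +kernel

end Pool.Agent.Lib.MP_ab8df0_nt.T.B8a
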